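import Mathlib

/-!
# The indeque density of triangular grids is at least `4/9`

A set of vertices of the triangular lattice with period `9` in both coordinates, which induces
pairwise non-adjacent triangles and contains `36` of the `81` residue classes, restricts to indeque
sets of all triangular grids.  Averaging over the translates gives an indeque set with at least
`4/9` of the vertices.
-/

namespace Pool.Agent.Results.MP_d2ef9c_co.FourNinths

open Filter Topology

/-- The vertices of the triangular grid `T_n`. -/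
abbrev Vert (n : ℕ) : Type := {p : ℕ × ℕ // p.1 + p.2 ≤ n}

/-- The triangular grid `T_n`. -/
def tri (n : ℕ) : SimpleGraph (Vert n) where
  Adj p q :=
    (p.1.2 = q.1.2 ∧ |(p.1.1 : ℤ) - q.1.1| = 1) ∨
    (p.1.1 = q.1.1 ∧ |(p.1.2 : ℤ) - q.1.2| = 1) ∨
    ((p.1.1 : ℤ) - q.1.1 = (q.1.2 : ℤ) - p.1.2 ∧ |(p.1.1 : ℤ) - q.1.1| = 1)
  symm := ⟨by
    rintro p q (⟨h1, h2⟩ | ⟨h1, h2⟩ | ⟨h1, h2⟩)
    · exact Or.inl ⟨h1.symm, by rw [abs_sub_comm]; exact h2⟩
    · exact Or.inr (Or.inl ⟨h1.symm, by rw [abs_sub_comm]; exact h2⟩)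
    · exact Or.inr (Or.inr ⟨by omega, by rw [abs_sub_comm]; exact h2⟩)⟩
  loopless := ⟨by
    rintro p (⟨_, h⟩ | ⟨_, h⟩ | ⟨_, h⟩) <;> simp at h⟩

/-- `S` is an indeque set of `G`: every connected component of the induced subgraph is complete,
i.e. any two distinct vertices of `S` joined by a path inside `S` are adjacent. -/
def IsIndeque {V : Type} (G : SimpleGraph V) (S : Set V) : Prop :=
  ∀ u v : S, (G.induce S).Reachable u v → u ≠ v → G.Adj u v

/-- The indeque number: the largest size of an indeque set. -/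
noncomputable def indequeNumber {V : Type} (G : SimpleGraph V) : ℕ :=
  sSup {k | ∃ S : Set V, IsIndeque G S ∧ S.ncard = k}

/-- The six neighbours of the origin. -/
def nb : List (ℤ × ℤ) := [(0, 1), (0, -1), (1, 0), (-1, 0), (1, -1), (-1, 1)]

/-- The rows of the periodic pattern, as bit masks. -/
def rows : Fin 9 → ℕ := ![171, 204, 273, 346, 99, 140, 213, 281, 98]

/-- The periodic pattern. -/
def pat (a b : ZMod 9) : Bool := (rows a).testBit (ZMod.val b)

lemma pat_count : ∀ a b : ZMod 9,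
    (Finset.univ.filter (fun s : ZMod 9 × ZMod 9 => pat (a + s.1) (b + s.2) = true)).card = 36 := by
  decide +kernel

lemma pat_local : ∀ a b : ZMod 9, pat a b = true → ∀ d ∈ nb, ∀ e ∈ nb, d ≠ e →
    pat (a + (d.1 : ZMod 9)) (b + (d.2 : ZMod 9)) = true →
    pat (a + (e.1 : ZMod 9)) (b + (e.2 : ZMod 9)) = true → (d.1 - e.1, d.2 - e.2) ∈ nb := by
  decide +kernel

lemma mem_nb (d : ℤ × ℤ) : d ∈ nb ↔
    (d.2 = 0 ∧ |d.1| = 1) ∨ (d.1 = 0 ∧ |d.2| = 1) ∨ (d.1 = -d.2 ∧ |d.1| = 1) := by
  obtain ⟨a, b⟩ := d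
  simp only [nb, List.mem_cons, Prod.mk.injEq, List.not_mem_nil, or_false]
  rw [Int.abs_eq_natAbs, Int.abs_eq_natAbs]
  omega

lemma adj_iff {n : ℕ} (p q : Vert n) :
    (tri n).Adj p q ↔ ((p.1.1 : ℤ) - q.1.1, (p.1.2 : ℤ) - q.1.2) ∈ nb := by
  rw [mem_nb]
  unfold tri
  constructor
  · rintro (⟨h1, h2⟩ | ⟨h1, h2⟩ | ⟨h1, h2⟩)
    · exact Or.inl ⟨by simp only; omega, h2⟩
    · exact Or.inr (Or.inl ⟨by simp only; omega, h2⟩)
    · exact Or.inr (Or.inr ⟨by simp only; omega, h2⟩)
  · rintro (⟨h1, h2⟩ | ⟨h1, h2⟩ | ⟨h1, h2⟩)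
    · exact Or.inl ⟨by simp only at h1; omega, h2⟩
    · exact Or.inr (Or.inl ⟨by simp only at h1; omega, h2⟩)
    · exact Or.inr (Or.inr ⟨by simp only at h1; omega, h2⟩)

/-- The trace of the translated pattern on the grid. -/
def trace (n : ℕ) (s : ZMod 9 × ZMod 9) : Set (Vert n) :=
  {p | pat ((p.1.1 : ZMod 9) + s.1) ((p.1.2 : ZMod 9) + s.2) = true}

/-- Two distinct neighbours in the pattern of a vertex of the pattern are adjacent. -/
lemma trace_trans {n : ℕ} {s : ZMod 9 × ZMod 9} {u v w : Vert n} (hu : u ∈ trace n s)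
    (hv : v ∈ trace n s) (hw : w ∈ trace n s) (huv : (tri n).Adj u v) (hwv : (tri n).Adj w v)
    (huw : u ≠ w) : (tri n).Adj u w := by
  rw [adj_iff] at huv hwv ⊢
  have key := pat_local ((v.1.1 : ZMod 9) + s.1) ((v.1.2 : ZMod 9) + s.2) hv _ huv _ hwv (by
    intro h
    apply huw
    have h1 := congrArg Prod.fst h
    have h2 := congrArg Prod.snd h
    simp only at h1 h2
    apply Subtype.ext
    apply Prod.ext
    · omega
    · omega) (by
    have h := hu
    unfold trace at h
    rw [Set.mem_ofPred_eq] at h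
    convert h using 2
    · push_cast; ring
    · push_cast; ring) (by
    have h := hw
    unfold trace at h
    rw [Set.mem_ofPred_eq] at h
    convert h using 2
    · push_cast; ring
    · push_cast; ring)
  convert key using 2
  · simp only; ring
  · simp only; ring

lemma trace_indeque (n : ℕ) (s : ZMod 9 × ZMod 9) : IsIndeque (tri n) (trace n s) := by
  intro u v huv hne
  obtain ⟨p⟩ := huv
  have key : ∀ (a b : trace n s) (p : ((tri n).induce (trace n s)).Walk a b),
      a = b ∨ (tri n).Adj a b := by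
    intro a b p
    induction p with
    | nil => exact Or.inl rfl
    | @cons a c b h p ih =>
      have hac : (tri n).Adj (a : Vert n) c := h
      rcases ih with rfl | ih
      · exact Or.inr hac
      · by_cases hab : (a : Vert n) = b
        · exact Or.inl (Subtype.ext hab)
        · exact Or.inr (trace_trans a.2 c.2 b.2 hac ih.symm hab)
  rcases key u v p with h | h
  · exact absurd h hne
  · exact h

instance (n : ℕ) : Finite (Vert n) := by
  have : Function.Injective (fun p : Vert n =>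
      ((⟨p.1.1, by have := p.2; omega⟩, ⟨p.1.2, by have := p.2; omega⟩) : Fin (n + 1) × Fin (n + 1))) := by
    intro p q h
    simp only [Prod.mk.injEq, Fin.mk.injEq] at h
    exact Subtype.ext (Prod.ext h.1 h.2)
  exact Finite.of_injective _ this

lemma exists_trace (n : ℕ) : ∃ s, 4 * Nat.card (Vert n) ≤ 9 * (trace n s).ncard := by
  classical
  have : Fintype (Vert n) := Fintype.ofFinite _
  have hcount : ∑ s : ZMod 9 × ZMod 9, (trace n s).ncard = 36 * Nat.card (Vert n) := by
    have h1 : ∀ s : ZMod 9 × ZMod 9, (trace n s).ncard =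
        ∑ p : Vert n, if pat ((p.1.1 : ZMod 9) + s.1) ((p.1.2 : ZMod 9) + s.2) = true
          then 1 else 0 := by
      intro s
      rw [← Finset.card_filter, Set.ncard_eq_toFinset_card']
      congr 1
      ext p
      simp only [Finset.mem_filter, Finset.mem_univ, true_and, Set.mem_toFinset]
      rfl
    rw [Finset.sum_congr rfl (fun s _ => h1 s), Finset.sum_comm]
    have h2 : ∀ p : Vert n, (∑ s : ZMod 9 × ZMod 9,
        if pat ((p.1.1 : ZMod 9) + s.1) ((p.1.2 : ZMod 9) + s.2) = true then 1 else 0) = 36 := by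
      intro p
      rw [← Finset.card_filter]
      exact pat_count _ _
    rw [Finset.sum_congr rfl (fun p _ => h2 p), Finset.sum_const, Finset.card_univ,
      Nat.card_eq_fintype_card, smul_eq_mul, mul_comm]
  by_contra hcon
  push Not at hcon
  have h3 : ∑ s : ZMod 9 × ZMod 9, 9 * (trace n s).ncard <
      ∑ s : ZMod 9 × ZMod 9, 4 * Nat.card (Vert n) :=
    Finset.sum_lt_sum_of_nonempty Finset.univ_nonempty (fun s _ => hcon s)
  rw [← Finset.mul_sum, hcount, Finset.sum_const, Finset.card_univ] at h3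
  have h4 : Fintype.card (ZMod 9 × ZMod 9) = 81 := by simp [ZMod.card]
  rw [h4, smul_eq_mul] at h3
  omega

lemma le_indequeNumber {V : Type} [Finite V] {G : SimpleGraph V} {S : Set V}
    (hS : IsIndeque G S) : S.ncard ≤ indequeNumber G := by
  refine le_csSup ⟨Nat.card V, ?_⟩ ⟨S, hS, rfl⟩
  rintro k ⟨S, _, rfl⟩
  exact Set.ncard_le_card S

lemma bound (n : ℕ) : 4 * Nat.card (Vert n) ≤ 9 * indequeNumber (tri n) := by
  obtain ⟨s, hs⟩ := exists_trace n
  have := le_indequeNumber (trace_indeque n s)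
  omega

lemma card_pos (n : ℕ) : 0 < Nat.card (Vert n) := by
  have : Nonempty (Vert n) := ⟨⟨(0, 0), by simp⟩⟩
  exact Nat.card_pos

/-- **Main theorem.**  For every `n` the triangular grid `T_n` has an indeque set with at least
`4/9` of its vertices.  So the ratio of the indeque number to the number of vertices does not tend
to `2/5`. -/
theorem result :
    (∀ n : ℕ, (4 / 9 : ℝ) * (Nat.card (Vert n) : ℝ) ≤ (indequeNumber (tri n) : ℝ)) ∧
    (∃ ε : ℝ, 0 < ε ∧ ∀ n : ℕ,
      (2 / 5 + ε) * (Nat.card (Vert n) : ℝ) ≤ (indequeNumber (tri n) : ℝ)) ∧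
    ¬ Tendsto (fun n : ℕ => (indequeNumber (tri n) : ℝ) / (Nat.card (Vert n) : ℝ)) atTop
      (𝓝 (2 / 5)) := by
  have h1 : ∀ n : ℕ, (4 / 9 : ℝ) * (Nat.card (Vert n) : ℝ) ≤ (indequeNumber (tri n) : ℝ) := by
    intro n
    have h : (4 : ℝ) * (Nat.card (Vert n) : ℝ) ≤ 9 * (indequeNumber (tri n) : ℝ) := by
      exact_mod_cast bound n
    linarith
  refine ⟨h1, ⟨2 / 45, by norm_num, fun n => ?_⟩, fun h => ?_⟩
  · have := h1 n
    norm_num
    linarith
  · have h2 : (4 / 9 : ℝ) ≤ 2 / 5 := by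
      refine ge_of_tendsto' h fun n => ?_
      have hp : (0 : ℝ) < (Nat.card (Vert n) : ℝ) := by exact_mod_cast card_pos n
      rw [le_div_iff₀ hp]
      exact h1 n
    norm_num at h2

end Pool.Agent.Results.MP_d2ef9c_co.FourNinths
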